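import Mathlib

/-! For every field of characteristic different from 2 and 3 there is a 5-dimensional CD algebra
which has no faithful module of any dimension. -/

namespace Pool.Agent.Results.MP_361790_al.AdoFails

universe u v w

/-- `[R_a, R_b] (x)`, where `R_a (x) = x a` and the product of operators is composition. -/
def commR {K : Type u} [Field K] {A : Type v} [AddCommGroup A] [Module K A]
    (mul : A →ₗ[K] A →ₗ[K] A) (a b x : A) : A :=
  mul (mul x b) a - mul (mul x a) b

/-- The bilinear product `mul` makes `A` a CD algebra: it is anticommutative (`x x = 0`), and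
every commutator `[R_a, R_b]` of right multiplications is a derivation. -/
def IsCD {K : Type u} [Field K] {A : Type v} [AddCommGroup A] [Module K A]
    (mul : A →ₗ[K] A →ₗ[K] A) : Prop :=
  (∀ x, mul x x = 0) ∧
    ∀ a b x y, commR mul a b (mul x y) = mul (commR mul a b x) y + mul x (commR mul a b y)

/-- The product `(a, m) (b, n) = (a b, a n - b m)` on `A × M`. -/
def semidirect {K : Type u} [Field K] {A : Type v} [AddCommGroup A] [Module K A]
    {M : Type w} [AddCommGroup M] [Module K M]
    (mul : A →ₗ[K] A →ₗ[K] A) (act : A →ₗ[K] M →ₗ[K] M) :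
    (A × M) →ₗ[K] (A × M) →ₗ[K] (A × M) :=
  LinearMap.mk₂ K (fun p q => (mul p.1 q.1, act p.1 q.2 - act q.1 p.2))
    (fun p p' q => by ext; · simp
                      · simp; abel)
    (fun c p q => by ext <;> simp [smul_sub])
    (fun p q q' => by ext; · simp
                      · simp; abel)
    (fun c p q => by ext <;> simp [smul_sub])

/-- `M` with the action `act` is a module over the CD algebra `A`: the space `A × M` with the
product `(a, m) (b, n) = (a b, a n - b m)` is a CD algebra. -/
def IsCDModule {K : Type u} [Field K] {A : Type v} [AddCommGroup A] [Module K A]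
    {M : Type w} [AddCommGroup M] [Module K M]
    (mul : A →ₗ[K] A →ₗ[K] A) (act : A →ₗ[K] M →ₗ[K] M) : Prop :=
  IsCD (semidirect mul act)

/-- The action is faithful: only `0` acts as zero. -/
def IsFaithful {K : Type u} [Field K] {A : Type v} [AddCommGroup A] [Module K A]
    {M : Type w} [AddCommGroup M] [Module K M] (act : A →ₗ[K] M →ₗ[K] M) : Prop :=
  ∀ a, (∀ m, act a m = 0) → a = 0

section general

variable {K : Type u} [Field K] {A : Type v} [AddCommGroup A] [Module K A]

lemma anticomm {mul : A →ₗ[K] A →ₗ[K] A} (h : ∀ x, mul x x = 0) (x y : A) :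
    mul x y = - mul y x := by
  have h1 := h (x + y)
  simp only [map_add, LinearMap.add_apply, h, zero_add, add_zero] at h1
  exact eq_neg_of_add_eq_zero_right h1

/-- In a CD algebra the Jacobians annihilate the algebra. -/
lemma jac_mul (h2 : (2 : K) ≠ 0) {mul : A →ₗ[K] A →ₗ[K] A} (h : IsCD mul) (x y z t : A) :
    mul (mul (mul x y) z + mul (mul y z) x + mul (mul z x) y) t = 0 := by
  obtain ⟨h0, hD⟩ := h
  have ac := anticomm h0
  have F : ∀ x y a b, mul (mul (mul x y) a) b - mul (mul (mul x y) b) a
      - mul (mul (mul x a) b) y + mul (mul (mul x b) a) y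
      + mul (mul (mul y a) b) x - mul (mul (mul y b) a) x = 0 := by
    intro x y a b
    have e := hD a b x y
    rw [ac x (commR mul a b y)] at e
    simp only [commR, map_sub, LinearMap.sub_apply] at e
    rw [← sub_eq_zero] at e
    rw [← neg_eq_zero, ← e]
    abel
  have e1 := F x t y z
  have e2 := F y t x z
  have e3 := F z t x y
  have a1 := ac t x
  have a2 := ac t y
  have a3 := ac t z
  have a4 := ac y x
  have a5 := ac z x
  have a6 := ac z y
  simp only [a1, a2, a3, a4, a5, a6, map_neg, LinearMap.neg_apply, map_add,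
    LinearMap.add_apply] at e1 e2 e3 ⊢
  have key : (2 : K) • (mul (mul (mul x y) z) t + mul (mul (mul y z) x) t
      + -mul (mul (mul x z) y) t) = 0 := by
    have e4 := congrArg₂ (· + ·) (congrArg₂ (· - ·) e2 e1) (congrArg Neg.neg e3)
    simp only [sub_zero, neg_zero, add_zero] at e4
    rw [← e4, two_smul]
    abel
  rcases smul_eq_zero.mp key with h | h
  · exact absurd h h2
  · exact h

end general

/-- The 5-dimensional algebra with basis `x, y, z, c, w` and `x y = c`, `c z = w`. -/
def exMul (K : Type u) [Field K] : (Fin 5 → K) →ₗ[K] (Fin 5 → K) →ₗ[K] (Fin 5 → K) :=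
  LinearMap.mk₂ K (fun p q => ![0, 0, 0, p 0 * q 1 - p 1 * q 0, p 3 * q 2 - p 2 * q 3])
    (fun p p' q => by ext i; fin_cases i <;> simp <;> ring)
    (fun c p q => by ext i; fin_cases i <;> simp <;> ring)
    (fun p q q' => by ext i; fin_cases i <;> simp <;> ring)
    (fun c p q => by ext i; fin_cases i <;> simp <;> ring)

lemma exMul_apply (K : Type u) [Field K] (p q : Fin 5 → K) :
    exMul K p q = ![0, 0, 0, p 0 * q 1 - p 1 * q 0, p 3 * q 2 - p 2 * q 3] := rfl

lemma exMul_isCD (K : Type u) [Field K] : IsCD (exMul K) := by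
  constructor
  · intro x
    rw [exMul_apply]
    ext i
    fin_cases i <;> simp <;> ring
  · intro a b x y
    simp only [commR, exMul_apply]
    ext i
    fin_cases i <;> simp

/-- Over every field `K` of characteristic different from 2 and 3 there is a 5-dimensional CD
algebra none of whose modules, of any dimension, is faithful. -/
theorem result (K : Type u) [Field K] (h2 : (2 : K) ≠ 0) (_h3 : (3 : K) ≠ 0) :
    ∃ mul : (Fin 5 → K) →ₗ[K] (Fin 5 → K) →ₗ[K] (Fin 5 → K), IsCD mul ∧
      ∀ (M : Type w) [AddCommGroup M] [Module K M] (act : (Fin 5 → K) →ₗ[K] M →ₗ[K] M),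
        IsCDModule mul act → ¬ IsFaithful act := by
  refine ⟨exMul K, exMul_isCD K, ?_⟩
  intro M _ _ act hact hf
  have hw : (![0, 0, 0, 0, 1] : Fin 5 → K) = 0 := by
    apply hf
    intro m
    have h := jac_mul h2 hact ((![1, 0, 0, 0, 0], 0) : (Fin 5 → K) × M)
      (![0, 1, 0, 0, 0], 0) (![0, 0, 1, 0, 0], 0) (0, m)
    have h' := congrArg Prod.snd h
    simpa [semidirect, exMul_apply] using h'
  have := congrFun hw 4
  simp at this

end Pool.Agent.Results.MP_361790_al.AdoFails
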